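import Mathlib
import Pool.Agent.Q1.QuantumCI.Main

/-!
# MP_315024: non-projective modules over quantum complete intersections have self-extensions
-/

namespace Pool.Agent.Results.MP_315024_al.NoRigidModules

open CategoryTheory Q1.QuantumCI

universe u

/-- **Negative answer to Q1.** Let `K` be a field, `a i ≥ 2` integers and `q i j ≠ 0` for `j < i`,
and let `A = QCI a q` be the quantum complete intersection
`K⟨x_1, …, x_n⟩ / (x_i ^ (a i), x_i x_j + q i j x_j x_i (i > j))`. Then every finitely generated
right `A`-module `M` that is not projective satisfies `Ext¹(M, M) ≠ 0`. -/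
theorem result (K : Type u) [Field K] (n : ℕ) (a : Fin n → ℕ) (ha : ∀ i, 2 ≤ a i)
    (q : Fin n → Fin n → K) (hq : ∀ i j, j < i → q i j ≠ 0)
    (M : ModuleCat.{u} (QCI a q)ᵐᵒᵖ) [Module.Finite (QCI a q)ᵐᵒᵖ M]
    (hM : ¬ Module.Projective (QCI a q)ᵐᵒᵖ M) :
    ∃ e : Abelian.Ext M M 1, e ≠ 0 := by
  by_contra hcon
  push Not at hcon
  exact hM (projective_of_rigid (fun i => le_trans one_le_two (ha i)) hq M hcon)

end Pool.Agent.Results.MP_315024_al.NoRigidModules
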